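import Pool.Agent.K7.H40.PU.Store

set_option autoImplicit false

/-! The program is computed in polynomial time; the reduction. -/

namespace Pool.Agent.K7.H40.PU

open Pool.Agent.NPC Pool.Agent.NPC.ER Pool.Agent.NPC.H612 Pool.Agent.H558R2 Pool.Agent.H622R3.SM
open Pool.Agent.R533.GU Pool.Agent.K7.H40.NU

variable {α : Type} [TEnc α]

attribute [local fun_prop] TPM.pInstr

theorem u_sS {u v : α → ℕ} (hu : UPoly u) (hv : UPoly v) : UPoly (fun a => sS (u a) (v a)) := by
  unfold sS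
  exact UPoly.mul (UPoly.const 2)
    (UPoly.mul (UPoly.add hu (UPoly.const 1)) (UPoly.add hv (UPoly.const 2)))

theorem u_bN {u v : α → ℕ} (hu : UPoly u) (hv : UPoly v) (k : ℕ) :
    UPoly (fun a => bN k (u a) (v a)) := by
  unfold bN
  exact u_pow (u_sS hu hv) _

theorem u_tT {u v : α → ℕ} (hu : UPoly u) (hv : UPoly v) (k : ℕ) :
    UPoly (fun a => tT k (u a) (v a)) := by
  unfold tT
  exact u_pow (u_bN hu hv k) _

theorem p_aB {u v : α → ℕ} (hu : Poly u) (hv : Poly v) : Poly (fun a => aB (u a) (v a)) := by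
  unfold aB
  fun_prop

theorem p_nB {u v : α → ℕ} (hu : Poly u) (hv : Poly v) : Poly (fun a => nB (u a) (v a)) := by
  unfold nB
  fun_prop

theorem p_nx {u v w : α → ℕ} (hu : Poly u) (hv : Poly v) (hw : Poly w) :
    Poly (fun a => nx (u a) (v a) (w a)) := by
  unfold nx
  have h1 := p_aB hu hv
  have h2 := p_nB hu hv
  fun_prop

theorem p_ok {u v w : α → ℕ} (hu : Poly u) (hv : Poly v) (hw : Poly w) :
    Poly (fun a => decide (Ok (u a) (v a) (w a))) := by
  have h1 := p_aB hu hv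
  have h2 : Poly (fun a => decide (w a < aB (u a) (v a) ∧ w a % (v a + 2) < v a + 1)) := by
    fun_prop
  exact h2.congr fun a => decide_eq_decide.mpr Iff.rfl

theorem p_tx {v w : α → ℕ} (hv : Poly v) (hw : Poly w) : Poly (fun a => tx (v a) (w a)) := by
  unfold tx
  fun_prop

theorem p_tc {u v w : α → ℕ} (hu : Poly u) (hv : Poly v) (hw : Poly w) :
    Poly (fun a => tc (u a) (v a) (w a)) := by
  unfold tc
  have h1 := p_aB hu hv
  have h2 := p_tx hv hw
  exact Poly.ite (p_ok hu hv hw) (by fun_prop) (by fun_prop)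

theorem p_eC {u v N I J : α → ℕ} (hu : Poly u) (hv : Poly v) (hN : Poly N) (hI : Poly I)
    (hJ : Poly J) : Poly (fun a => eC (u a) (v a) (N a) (I a) (J a)) := by
  unfold eC
  have h1 := p_nx hu hv hI
  have h2 := p_ok hu hv hI
  have h3 := p_tc hu hv hI
  have h4 := p_nB hu hv
  fun_prop

theorem p_enI {u v N I J : α → ℕ} (hu : Poly u) (hv : Poly v) (hN : Poly N) (hI : Poly I)
    (hJ : Poly J) : Poly (fun a => enI (u a) (v a) (N a) (I a) (J a)) := by
  have h1 := p_eC hu hv hN hI hJ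
  have h2 := p_tx hv hI
  have h4 : Poly (fun a => if eC (u a) (v a) (N a) (I a) (J a) = 1 then ([2] : Reg) else
      if eC (u a) (v a) (N a) (I a) (J a) = 3 then [11, tx (v a) (I a)] else [3]) := by
    fun_prop
  have h6 : Poly (fun a => if eC (u a) (v a) (N a) (I a) (J a) = 2 then ([2] : Reg)
      else [3]) := by
    fun_prop
  have h5 : Poly (fun a => if eC (u a) (v a) (N a) (I a) (J a) = 2 then
      Instr.mk Op.sub [0, I a, J a] (if eC (u a) (v a) (N a) (I a) (J a) = 1 then ([2] : Reg)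
        else if eC (u a) (v a) (N a) (I a) (J a) = 3 then [11, tx (v a) (I a)] else [3])
        (if eC (u a) (v a) (N a) (I a) (J a) = 2 then ([2] : Reg) else [3])
      else Instr.mk Op.add [0, I a, J a]
        (if eC (u a) (v a) (N a) (I a) (J a) = 1 then ([2] : Reg)
        else if eC (u a) (v a) (N a) (I a) (J a) = 3 then [11, tx (v a) (I a)] else [3])
        (if eC (u a) (v a) (N a) (I a) (J a) = 2 then ([2] : Reg) else [3])) :=
    Poly.ite (by fun_prop) (TPM.pInstr _ (by fun_prop) h4 h6)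
      (TPM.pInstr _ (by fun_prop) h4 h6)
  refine h5.congr fun a => ?_
  unfold enI
  split_ifs <;> rfl

theorem p_pr1 {u v t : α → ℕ} (hu : UPoly u) (hv : UPoly v) (ht : UPoly t) :
    Poly (fun a => pr1 (t a) (u a) (v a)) := by
  have h1 := p_ph1 hu hv
  have h2 := p_ph2 hu hv
  have h3 := p_ph3 hu hv
  have h5 := p_ph5 ht
  have h7 := p_ph7 hu hv
  have hT := ht.toPoly
  have hM := (u_mn hu hv).toPoly
  unfold pr1
  fun_prop

theorem p_pr2a {u v w : α → ℕ} (hu : UPoly u) (hv : UPoly v) (hw : UPoly w) :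
    Poly (fun a => pr2a (u a) (v a) (w a)) := by
  have h1 := (UPoly.mul (UPoly.add hw (UPoly.const 1)) hw).range
  unfold pr2a
  refine NPC.Poly.map h1 ?_
  have h2 : Poly (fun p : α × ℕ => w p.1) := hw.toPoly.comp (Poly.fst Poly.id)
  exact p_enI (hu.toPoly.comp (Poly.fst Poly.id)) (hv.toPoly.comp (Poly.fst Poly.id)) h2
    (Poly.div (Poly.snd Poly.id) h2) (Poly.mod (Poly.snd Poly.id) h2)

theorem p_pr2b {w : α → ℕ} (hw : UPoly w) : Poly (fun a => pr2b (w a)) := by
  have h1 := (UPoly.add hw (UPoly.const 1)).range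
  unfold pr2b
  refine NPC.Poly.map h1 ?_
  have h2 : Poly (fun p : α × ℕ => w p.1) := hw.toPoly.comp (Poly.fst Poly.id)
  have h4 : Poly (fun p : α × ℕ => if p.2 < w p.1 then ([3] : Reg) else [2]) :=
    Poly.ite (Poly.decide_lt (Poly.snd Poly.id) h2) (NPC.Poly.const _) (NPC.Poly.const _)
  exact TPM.pInstr _ (by fun_prop) h4 (by fun_prop)

theorem p_pr3 {u v t : α → ℕ} (hu : UPoly u) (hv : UPoly v) (ht : UPoly t) :
    Poly (fun a => pr3 (t a) (u a) (v a)) := by
  unfold pr3
  refine NPC.Poly.map (p_pr1 hu hv ht) ?_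
  exact TPM.pInstr _ (p_dst.comp (Poly.snd Poly.id)) (by fun_prop) (by fun_prop)

theorem p_prg {u v t w : α → ℕ} (hu : UPoly u) (hv : UPoly v) (ht : UPoly t) (hw : UPoly w) :
    Poly (fun a => prg (t a) (w a) (u a) (v a)) := by
  have h1 := p_pr1 hu hv ht
  have h2 := p_pr2a hu hv hw
  have h3 := p_pr2b hw
  have h4 := p_pr3 hu hv ht
  unfold prg
  fun_prop

/-- The reduction program. -/
def red (k m n : ℕ) : List Instr := prg (tT k m n) (bN k m n) m n

theorem p_red (k : ℕ) {u v : α → ℕ} (hu : UPoly u) (hv : UPoly v) :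
    Poly (fun a => red k (u a) (v a)) := by
  unfold red
  exact p_prg hu hv (u_tT hu hv k) (u_bN hu hv k)

theorem red_computed (k : ℕ) :
    Computed (fun p : List Unit × List Unit => red k p.1.length p.2.length) :=
  t_COMP _ _ _ (p_red k (UPoly.length (Poly.fst Poly.id)) (UPoly.length (Poly.snd Poly.id)))

/-! ### Bounds -/

/-- A bound for `sS`. -/
def gS (x : ℕ) : ℕ := 2 * ((x + 1) * (x + 2))

/-- A bound for `bN`. -/
def gN (k x : ℕ) : ℕ := gS x ^ (k + 1)

/-- A bound for `tT`. -/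
def gT (k x : ℕ) : ℕ := gN k x ^ k

/-- A bound for the length of the program. -/
def gL (k x : ℕ) : ℕ := 2 * (4 * (x * (x + 1)) + gT k x + 6) + ((gN k x + 1) * gN k x +
  (gN k x + 1))

/-- A bound for `hg`. -/
def gH (k x : ℕ) : ℕ := 10 * (gT k x + 1) + 10 + x * (x + 1) * (2 * x + 1) + 5 * x

theorem le_gN {k m n x : ℕ} (h : m + n ≤ x) : bN k m n ≤ gN k x := by
  unfold bN gN sS gS
  refine Nat.pow_le_pow_left ?_ _
  exact Nat.mul_le_mul_left _ (Nat.mul_le_mul (by omega) (by omega))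

theorem le_gT {k m n x : ℕ} (h : m + n ≤ x) : tT k m n ≤ gT k x := by
  unfold tT gT
  exact Nat.pow_le_pow_left (le_gN h) _

theorem le_gH {k m n x : ℕ} (h : m + n ≤ x) : hg (tT k m n) m n x ≤ gH k x := by
  unfold hg gH
  have h1 := le_gT (k := k) h
  have h2 := Nat.mul_le_mul_right (2 * x + 1) (le_M h)
  omega

open Polynomial in
/-- There is a polynomial with the right values. -/
theorem exists_poly' (k : ℕ) : ∃ q : Polynomial ℕ, ∀ x,
    q.eval x = (gN k x + 1 + gN k x) + gL k x + gH k x := by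
  let PS : Polynomial ℕ := C 2 * ((X + 1) * (X + 2))
  let PN : Polynomial ℕ := PS ^ (k + 1)
  let PT : Polynomial ℕ := PN ^ k
  let PL : Polynomial ℕ := C 2 * (C 4 * (X * (X + 1)) + PT + C 6) + ((PN + 1) * PN + (PN + 1))
  let PH : Polynomial ℕ := C 10 * (PT + 1) + C 10 + X * (X + 1) * (C 2 * X + 1) + C 5 * X
  have hN : ∀ x, PN.eval x = gN k x := fun x => by simp [PN, PS, gN, gS]
  have hT : ∀ x, PT.eval x = gT k x := fun x => by
    change eval x (PN ^ k) = _
    rw [eval_pow, hN]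
    rfl
  have hL : ∀ x, PL.eval x = gL k x := fun x => by
    change eval x (C 2 * (C 4 * (X * (X + 1)) + PT + C 6) + ((PN + 1) * PN + (PN + 1))) = _
    simp only [eval_add, eval_mul, eval_C, eval_X, eval_one, hT, hN]
    rfl
  have hH : ∀ x, PH.eval x = gH k x := fun x => by
    change eval x (C 10 * (PT + 1) + C 10 + X * (X + 1) * (C 2 * X + 1) + C 5 * X) = _
    simp only [eval_add, eval_mul, eval_C, eval_X, eval_one, hT]
    rfl
  refine ⟨(PN + 1 + PN) + PL + PH, fun x => ?_⟩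
  simp only [eval_add, eval_one, hN, hL, hH]

theorem is_red (k : ℕ) : ∃ q : Polynomial ℕ, IsRed (fun _ _ _ _ => True) (PermSystem k) (red k)
    (fun m n => bN k m n + 1) (bN k) q := by
  obtain ⟨q, hq⟩ := exists_poly' k
  refine ⟨q, fun m n hm hn => ?_⟩
  have hN := nB_le k m n
  have hpos := nB_pos m n
  have h1 := hq (m + n)
  have h2 := le_gN (k := k) (le_refl (m + n))
  refine ⟨by change 1 ≤ bN k m n + 1; omega, by omega,
    by change bN k m n + 1 + bN k m n ≤ _; omega, fun A b _ => ?_⟩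
  refine ⟨nA (tT k m n) (bN k m n) A b, nb (bN k m n), vls (tT k m n) (bN k m n) A b,
    exec_prg _ _ A b hN, ?_, nA_class k m n A b, nA_iff _ _ A b (by omega),
    fun L hL hS => ?_⟩
  · rw [vls_length]
    have h3 := le_gT (k := k) (le_refl (m + n))
    have h4 := le_M (le_refl (m + n))
    have h5 : (bN k m n + 1) * bN k m n ≤ (gN k (m + n) + 1) * gN k (m + n) :=
      Nat.mul_le_mul (by omega) h2
    unfold gL at h1
    omega
  · have h6 := hq L
    have h7 := le_gH (k := k) hL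
    have h8 : hg (tT k m n) m n L ≤ q.eval L := by omega
    exact ⟨fun v hv => (sm_vls hS v hv).mono h8, fun i j => (sm_nA hS i j).mono h8,
      fun i => (sm_nb L i).mono h8⟩

/-- The equivalences. -/
theorem main_iff (k : ℕ) (O : Set (List Bool)) :
    ((∃ α : Alg, PolyControl α ∧ DecidesOn O (PermSystem k) α) ↔
      ∃ α : Alg, PolyControl α ∧ DecidesOn O (fun _ _ _ _ => True) α) ∧
    ((∃ α : Alg, PolyControl α ∧ OracleFree α ∧ DecidesOn O (PermSystem k) α) ↔
      ∃ α : Alg, PolyControl α ∧ OracleFree α ∧ DecidesOn O (fun _ _ _ _ => True) α) := by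
  obtain ⟨q, hq⟩ := is_red k
  exact red_iff hq (fun _ _ _ _ _ => trivial)
    (UPoly.add (u_bN TUP.u_m TUP.u_n k) (UPoly.const 1)) (u_bN TUP.u_m TUP.u_n k)
    (p_red k TUP.u_m TUP.u_n) O

end Pool.Agent.K7.H40.PU
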