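import Mathlib

set_option autoImplicit false

/-!
# Linear systems given by a permutation and tiny couplings
-/

namespace Pool.Agent.K7.H40.PU

/-- The system `A x ≥ b` is, for a permutation `π` of the `n` unknowns, a map `τ` and real numbers
`δ i`,

`x i - x (π i) + δ i * x (τ i) ≥ 0` for all `i`, and `x i₀ ≥ 1`.

So `A` is the matrix `I - P + Δ Q` with one more row, which is a unit vector; `P` is a permutation
matrix. The numbers `δ i` are tiny, namely at most `2 ^ (-n ^ k)` in absolute value, and at most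
`n ^ (1 / k)` of them are different from `0`; every unknown occurs in at most one of the terms
`δ i * x (τ i)` with `δ i ≠ 0`, and then it is different from `x i` and `x (π i)`. -/
def PermSystem (k m n : ℕ) (A : Matrix (Fin m) (Fin n) ℝ) (b : Fin m → ℝ) : Prop :=
  ∃ (π : Equiv.Perm (Fin n)) (τ : Fin n → Fin n) (δ : Fin n → ℝ) (i₀ : Fin n),
    m = n + 1 ∧ (∀ i, |δ i| ≤ 1 / 2 ^ (n ^ k)) ∧ {i | δ i ≠ 0}.ncard ^ k ≤ n ∧
    (∀ i, δ i ≠ 0 → τ i ≠ i ∧ τ i ≠ π i) ∧
    (∀ i j, δ i ≠ 0 → δ j ≠ 0 → τ i = τ j → i = j) ∧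
    (∀ (x : Fin n → ℝ) (i : Fin m), A.mulVec x i =
      if h : (i : ℕ) < n then x ⟨i, h⟩ - x (π ⟨i, h⟩) + δ ⟨i, h⟩ * x (τ ⟨i, h⟩) else x i₀) ∧
    ∀ i : Fin m, b i = if (i : ℕ) < n then 0 else 1

end Pool.Agent.K7.H40.PU
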