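import Pool.Agent.K7.H40.PU.Sys

set_option autoImplicit false

/-! The program which writes the new system. -/

namespace Pool.Agent.K7.H40.PU

open Pool.Agent.NPC Pool.Agent.H558R2 Pool.Agent.H622R3.SM
open Pool.Agent.R533.GU Pool.Agent.K7.H40.NU

/-! ### Sizes -/

/-- A bound for the number of unknowns. -/
def sS (m n : ℕ) : ℕ := 2 * ((m + 1) * (n + 2))

/-- The number of unknowns after padding. -/
def bN (k m n : ℕ) : ℕ := sS m n ^ (k + 1)

/-- The exponent. -/
def tT (k m n : ℕ) : ℕ := bN k m n ^ k

theorem sS_le (k m n : ℕ) : sS m n ≤ bN k m n := by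
  unfold bN
  have h : 1 ≤ sS m n := by
    unfold sS
    exact Nat.succ_le_of_lt (by positivity)
  calc sS m n = sS m n ^ 1 := (pow_one _).symm
    _ ≤ sS m n ^ (k + 1) := Nat.pow_le_pow_right h (by omega)

theorem nB_le (k m n : ℕ) : nB m n + 1 ≤ bN k m n := by
  refine le_trans ?_ (sS_le k m n)
  unfold nB sS
  nlinarith [Nat.zero_le (m * n)]

theorem nB_pos (m n : ℕ) : 1 ≤ nB m n := by
  unfold nB
  nlinarith [Nat.zero_le (m * n)]

theorem tc_lt {m n v : ℕ} : tc m n v < nB m n := by
  unfold tc
  split_ifs with h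
  · obtain ⟨h1, h2⟩ := h
    obtain ⟨i, c, hi, hc, rfl⟩ := s_form h1
    rw [s_mod _ _ _ hc] at h2
    unfold tx
    rw [s_mod _ _ _ hc, s_div _ _ _ hc]
    have := h_lt (show i < m + 1 by omega) h2
    have hab : nB m n = aB m n + (m + 1) * (n + 1) := rfl
    omega
  · have := nB_pos m n
    omega

/-! ### The data -/

/-- The scaling factor. -/
noncomputable def th {m n : ℕ} (T : ℕ) (A : Matrix (Fin m) (Fin n) ℝ) (b : Fin m → ℝ) : ℝ :=
  (1 / 2) ^ (T + 1) / ssum A b (m * (n + 1))

/-- The data. -/
noncomputable def dd {m n : ℕ} (T : ℕ) (A : Matrix (Fin m) (Fin n) ℝ) (b : Fin m → ℝ)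
    (i j : ℕ) : ℝ := th T A b * ext A b i j

/-- The code of an entry. -/
def eC (m n N I J : ℕ) : ℕ :=
  if I < N then
    (if J = I then (if nx m n I = I then 0 else 1)
      else if J = nx m n I then 2 else if Ok m n I ∧ J = tc m n I then 3 else 0)
  else if J = nB m n - 1 then 1 else 0

/-- The new matrix. -/
noncomputable def nA {m n : ℕ} (T N : ℕ) (A : Matrix (Fin m) (Fin n) ℝ) (b : Fin m → ℝ) :
    Matrix (Fin (N + 1)) (Fin N) ℝ := fun I J =>
  R533.GU.val (dd T A b (I / (n + 2)) (I % (n + 2))) (eC m n N I J)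

/-- The new right-hand side. -/
def nb (N : ℕ) : Fin (N + 1) → ℝ := fun I => if (I : ℕ) < N then 0 else 1

variable {m n : ℕ} (T N : ℕ) (A : Matrix (Fin m) (Fin n) ℝ) (b : Fin m → ℝ)

/-- The coefficient of the third term. -/
noncomputable def del (v : ℕ) : ℝ :=
  if Ok m n v then dd T A b (v / (n + 2)) (v % (n + 2)) else 0

theorem ok_of_del {v : ℕ} (h : del T A b v ≠ 0) : Ok m n v := by
  by_contra h'
  apply h
  unfold del
  rw [if_neg h']

theorem ok_nx {v : ℕ} (h : Ok m n v) : nx m n v = v + 1 ∧ v + 1 < aB m n ∧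
    aB m n ≤ tc m n v := by
  have h' := h
  obtain ⟨h1, h2⟩ := h
  obtain ⟨i, c, hi, hc, rfl⟩ := s_form h1
  rw [s_mod _ _ _ hc] at h2
  refine ⟨by rw [nx_s hi h2]; ring, ?_, ?_⟩
  · have := s_lt hi (show c + 1 < n + 2 by omega)
    omega
  · unfold tc
    rw [if_pos h']
    omega

theorem nA_entry {I : Fin (N + 1)} (hI : (I : ℕ) < N) (J : Fin N) :
    nA T N A b I J = (if (J : ℕ) = I then 1 else 0) - (if (J : ℕ) = nx m n I then 1 else 0) +
      (if (J : ℕ) = tc m n I then del T A b I else 0) := by
  by_cases hok : Ok m n I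
  · obtain ⟨h1, h2, h3⟩ := ok_nx hok
    by_cases c1 : (J : ℕ) = I
    · have e1 : ¬ (J : ℕ) = nx m n I := by omega
      have e2 : ¬ (J : ℕ) = tc m n I := by omega
      have e3 : ¬ nx m n I = I := by omega
      have ec : eC m n N I J = 1 := by
        unfold eC
        rw [if_pos hI, if_pos c1, if_neg e3]
      unfold nA R533.GU.val
      rw [ec, if_pos c1, if_neg e1, if_neg e2, if_pos rfl]
      norm_num
    · by_cases c2 : (J : ℕ) = nx m n I
      · have e2 : ¬ (J : ℕ) = tc m n I := by omega
        have ec : eC m n N I J = 2 := by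
          unfold eC
          rw [if_pos hI, if_neg c1, if_pos c2]
        unfold nA R533.GU.val
        rw [ec, if_neg c1, if_pos c2, if_neg e2]
        norm_num
      · by_cases c3 : (J : ℕ) = tc m n I
        · have ec : eC m n N I J = 3 := by
            unfold eC
            rw [if_pos hI, if_neg c1, if_neg c2, if_pos ⟨hok, c3⟩]
          unfold nA R533.GU.val del
          rw [ec, if_neg c1, if_neg c2, if_pos c3, if_pos hok]
          norm_num
        · have ec : eC m n N I J = 0 := by
            unfold eC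
            rw [if_pos hI, if_neg c1, if_neg c2, if_neg (fun h => c3 h.2)]
          unfold nA R533.GU.val
          rw [ec, if_neg c1, if_neg c2, if_neg c3]
          norm_num
  · have hd : del T A b I = 0 := by
      unfold del
      rw [if_neg hok]
    rw [hd]
    simp only [ite_self, add_zero]
    by_cases c1 : (J : ℕ) = I
    · by_cases c2 : nx m n I = I
      · have ec : eC m n N I J = 0 := by
          unfold eC
          rw [if_pos hI, if_pos c1, if_pos c2]
        unfold nA R533.GU.val
        rw [ec, if_pos c1, if_pos (c1.trans c2.symm)]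
        norm_num
      · have ec : eC m n N I J = 1 := by
          unfold eC
          rw [if_pos hI, if_pos c1, if_neg c2]
        unfold nA R533.GU.val
        have c4 : ¬ (J : ℕ) = nx m n I := fun h => c2 (h.symm.trans c1)
        rw [ec, if_pos rfl, if_pos c1, if_neg c4]
        norm_num
    · by_cases c2 : (J : ℕ) = nx m n I
      · have ec : eC m n N I J = 2 := by
          unfold eC
          rw [if_pos hI, if_neg c1, if_pos c2]
        unfold nA R533.GU.val
        rw [ec, if_neg c1, if_pos c2]
        norm_num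
      · have ec : eC m n N I J = 0 := by
          unfold eC
          rw [if_pos hI, if_neg c1, if_neg c2, if_neg (fun h => hok h.1)]
        unfold nA R533.GU.val
        rw [ec, if_neg c1, if_neg c2]
        norm_num

theorem nA_last {I : Fin (N + 1)} (hI : ¬ (I : ℕ) < N) (J : Fin N) :
    nA T N A b I J = if (J : ℕ) = nB m n - 1 then 1 else 0 := by
  unfold nA eC R533.GU.val
  rw [if_neg hI]
  split_ifs <;> simp_all

/-- A vector as a function on the natural numbers. -/
noncomputable def exV {N : ℕ} (x : Fin N → ℝ) (v : ℕ) : ℝ := if h : v < N then x ⟨v, h⟩ else 0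

theorem sum_exV {N : ℕ} (x : Fin N → ℝ) (v : ℕ) (c : ℝ) :
    ∑ J : Fin N, (if (J : ℕ) = v then c else 0) * x J = c * exV x v := by
  unfold exV
  by_cases h : v < N
  · rw [dif_pos h, Finset.sum_eq_single (⟨v, h⟩ : Fin N)]
    · simp
    · intro J _ hJ
      rw [if_neg (fun e => hJ (Fin.ext e)), zero_mul]
    · intro h'; exact absurd (Finset.mem_univ _) h'
  · rw [dif_neg h, mul_zero]
    exact Finset.sum_eq_zero fun J _ => by
      rw [if_neg (by omega), zero_mul]

theorem nA_mulVec (x : Fin N → ℝ) (I : Fin (N + 1)) : (nA T N A b).mulVec x I =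
    if (I : ℕ) < N then exV x I - exV x (nx m n I) + del T A b I * exV x (tc m n I)
    else exV x (nB m n - 1) := by
  unfold Matrix.mulVec dotProduct
  by_cases hI : (I : ℕ) < N
  · rw [if_pos hI]
    have e : ∀ J : Fin N, nA T N A b I J * x J = (if (J : ℕ) = I then 1 else 0) * x J -
        (if (J : ℕ) = nx m n I then 1 else 0) * x J +
        (if (J : ℕ) = tc m n I then del T A b I else 0) * x J := by
      intro J
      rw [nA_entry T N A b hI J]
      ring
    simp only [e]
    rw [Finset.sum_add_distrib, Finset.sum_sub_distrib, sum_exV, sum_exV, sum_exV]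
    ring
  · rw [if_neg hI]
    simp only [nA_last T N A b hI]
    rw [sum_exV]
    ring

theorem th_pos : 0 < th T A b := by
  have h0 := one_le_ssum A b (m * (n + 1))
  unfold th
  positivity

theorem abs_dd_le (i j : ℕ) : |dd T A b i j| ≤ 1 / 2 ^ T := by
  have h0 := one_le_ssum A b (m * (n + 1))
  have h1 := abs_ext_le A b i j
  have h2 : |dd T A b i j| ≤ (1 / 2) ^ (T + 1) := by
    unfold dd
    rw [abs_mul, abs_of_pos (th_pos T A b)]
    unfold th
    rw [div_mul_eq_mul_div, div_le_iff₀ (by linarith)]
    exact mul_le_mul_of_nonneg_left h1 (by positivity)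
  refine h2.trans ?_
  rw [one_div_pow, pow_succ]
  have : (0 : ℝ) < 2 ^ T := by positivity
  rw [div_le_div_iff₀ (by positivity) this]
  linarith

theorem abs_del_le (v : ℕ) : |del T A b v| ≤ 1 / 2 ^ T := by
  unfold del
  split_ifs
  · exact abs_dd_le T A b _ _
  · rw [abs_zero]
    positivity

/-- **The new system is solvable iff the old one is.** -/
theorem nA_iff (hN : nB m n ≤ N) : (∃ z, nb N ≤ (nA T N A b).mulVec z) ↔
    ∃ x : Fin n → ℝ, b ≤ A.mulVec x := by
  have key : ∀ (i : ℕ) (h : ℕ → ℝ), (0 ≤ ∑ j ∈ Finset.range (n + 1), dd T A b i j * h j) ↔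
      0 ≤ ∑ j ∈ Finset.range (n + 1), ext A b i j * h j := by
    intro i h
    have e : ∑ j ∈ Finset.range (n + 1), dd T A b i j * h j =
        th T A b * ∑ j ∈ Finset.range (n + 1), ext A b i j * h j := by
      rw [Finset.mul_sum]
      exact Finset.sum_congr rfl fun j _ => by unfold dd; ring
    rw [e]
    exact mul_nonneg_iff_of_pos_left (th_pos T A b)
  constructor
  · rintro ⟨z, hz⟩
    have hsys : Sys m n N (dd T A b) (exV z) := by
      refine ⟨fun v hv => ?_, ?_⟩
      · have h1 := hz (⟨v, by omega⟩ : Fin (N + 1))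
        rw [nA_mulVec] at h1
        unfold nb at h1
        simp only [if_pos hv] at h1
        exact h1
      · have h1 := hz (Fin.last N)
        rw [nA_mulVec] at h1
        unfold nb at h1
        simp only [Fin.val_last, lt_irrefl, if_false] at h1
        exact h1
    obtain ⟨hn, hs⟩ := sys_forth hN _ _ hsys
    refine ⟨fun j => exV z (aB m n + j) / exV z (aB m n + n), fun i => ?_⟩
    have h1 := (key i (fun j => exV z (aB m n + j))).mp (hs i i.2)
    rw [ext_sum A b i (fun j => exV z (aB m n + j))] at h1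
    have hp : 0 < exV z (aB m n + n) := by linarith
    have h2 : A.mulVec (fun j : Fin n => exV z (aB m n + j) / exV z (aB m n + n)) i =
        (∑ j : Fin n, A i j * exV z (aB m n + j)) / exV z (aB m n + n) := by
      unfold Matrix.mulVec dotProduct
      rw [Finset.sum_div]
      exact Finset.sum_congr rfl fun j _ => by ring
    rw [h2, le_div_iff₀ hp]
    linarith
  · rintro ⟨x, hx⟩
    have hsys : Sys m n N (dd T A b)
        (solY m n (dd T A b) (fun j => if h : j < n then x ⟨j, h⟩ else 1)) := by
      refine sys_back _ _ (by simp) fun i hi => ?_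
      rw [key]
      have h1 := ext_sum A b ⟨i, hi⟩ (fun j => if h : j < n then x ⟨j, h⟩ else 1)
      have h2 := hx ⟨i, hi⟩
      simp only at h1
      rw [h1]
      simp only [Fin.is_lt, dite_true, Fin.eta, lt_irrefl, dite_false, mul_one]
      unfold Matrix.mulVec dotProduct at h2
      linarith
    obtain ⟨h1, h2⟩ := hsys
    refine ⟨fun J => solY m n (dd T A b) (fun j => if h : j < n then x ⟨j, h⟩ else 1) J,
      fun I => ?_⟩
    have hex : ∀ v, v < N → exV (fun J : Fin N => solY m n (dd T A b)
        (fun j => if h : j < n then x ⟨j, h⟩ else 1) J) v =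
        solY m n (dd T A b) (fun j => if h : j < n then x ⟨j, h⟩ else 1) v := by
      intro v hv
      unfold exV
      rw [dif_pos hv]
    have hpos := nB_pos m n
    rw [nA_mulVec]
    unfold nb
    by_cases hI : (I : ℕ) < N
    · rw [if_pos hI, if_pos hI, hex _ hI, hex _ (nx_lt hN hI), hex _ (tc_lt.trans_le hN)]
      exact h1 I hI
    · rw [if_neg hI, if_neg hI, hex _ (by omega)]
      exact h2

/-- The new system is in the class. -/
theorem nA_class (k m n : ℕ) (A : Matrix (Fin m) (Fin n) ℝ) (b : Fin m → ℝ) :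
    PermSystem k (bN k m n + 1) (bN k m n) (nA (tT k m n) (bN k m n) A b) (nb (bN k m n)) := by
  have hN := nB_le k m n
  have hpos := nB_pos m n
  have hN' : nB m n ≤ bN k m n := by omega
  refine ⟨perm hN', fun v => ⟨tc m n v, tc_lt.trans_le hN'⟩, fun v => del (tT k m n) A b v,
    ⟨nB m n - 1, by omega⟩, rfl, fun v => abs_del_le _ A b v, ?_, ?_, ?_, ?_, fun _ => rfl⟩
  · have h1 : {v : Fin (bN k m n) | del (tT k m n) A b v ≠ 0}.ncard ≤ sS m n := by
      have h2 : {v : Fin (bN k m n) | del (tT k m n) A b v ≠ 0} ⊆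
          ((Finset.univ.filter fun v : Fin (bN k m n) => (v : ℕ) < aB m n :
            Finset (Fin (bN k m n))) : Set (Fin (bN k m n))) := by
        intro v hv
        simp only [Finset.coe_filter, Finset.mem_univ, true_and]
        by_contra h
        apply hv
        unfold del
        rw [if_neg (fun h' => h h'.1)]
      refine (Set.ncard_le_ncard h2 (Set.toFinite _)).trans ?_
      rw [Set.ncard_coe_finset]
      refine le_trans (Finset.card_le_card_of_injOn (t := Finset.range (aB m n))
        (fun v => (v : ℕ)) ?_ (fun v _ w _ h => Fin.ext h)) ?_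
      · intro v hv
        simp only [Finset.coe_filter, Finset.mem_univ, true_and, Set.mem_ofPred_eq] at hv
        simpa using hv
      · rw [Finset.card_range]
        unfold aB sS
        nlinarith [Nat.zero_le (m * n)]
    calc _ ≤ sS m n ^ k := Nat.pow_le_pow_left h1 k
      _ ≤ sS m n ^ (k + 1) := Nat.pow_le_pow_right (by
          unfold sS
          exact Nat.succ_le_of_lt (by positivity)) (by omega)
  · intro v hv
    have hok : Ok m n v := ok_of_del _ A b hv
    obtain ⟨h1, h2, h3⟩ := ok_nx hok
    refine ⟨fun h => ?_, fun h => ?_⟩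
    · have := congrArg Fin.val h
      simp only at this
      omega
    · have h4 : tc m n v = nx m n v := congrArg Fin.val h
      omega
  · intro v w hv hw h
    have hokv : Ok m n v := ok_of_del _ A b hv
    have hokw : Ok m n w := ok_of_del _ A b hw
    have h4 : tc m n v = tc m n w := congrArg Fin.val h
    unfold tc at h4
    rw [if_pos hokv, if_pos hokw] at h4
    obtain ⟨h5, h6⟩ := hokv
    obtain ⟨h7, h8⟩ := hokw
    obtain ⟨i, c, hi, hc, e1⟩ := s_form h5
    obtain ⟨i', c', hi', hc', e2⟩ := s_form h7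
    rw [e1, s_mod _ _ _ hc] at h6
    rw [e2, s_mod _ _ _ hc'] at h8
    rw [e1, e2] at h4
    unfold tx at h4
    rw [s_mod _ _ _ hc, s_div _ _ _ hc, s_mod _ _ _ hc', s_div _ _ _ hc'] at h4
    have h9 : i * (n + 1) + c = i' * (n + 1) + c' := by omega
    have h10 : i = i' := by
      have := congrArg (· / (n + 1)) h9
      simpa [idx_div _ _ h6, idx_div _ _ h8] using this
    have h11 : c = c' := by
      rw [h10] at h9
      omega
    exact Fin.ext (by rw [e1, e2, h10, h11])
  · intro x I
    rw [nA_mulVec]
    have hex : ∀ v (hv : v < bN k m n), exV x v = x ⟨v, hv⟩ := by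
      intro v hv
      unfold exV
      rw [dif_pos hv]
    by_cases hI : (I : ℕ) < bN k m n
    · rw [if_pos hI, dif_pos hI, hex _ hI, hex _ (nx_lt hN' hI), hex _ (tc_lt.trans_le hN')]
      rfl
    · rw [if_neg hI, dif_neg hI, hex]

end Pool.Agent.K7.H40.PU
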