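import Pool.Agent.K7.H40.NU.Main

set_option autoImplicit false

/-! Reductions by straight-line programs, for arbitrary classes of systems. -/

namespace Pool.Agent.K7.H40.PU

open Pool.Agent.NPC Pool.Agent.H558R2 Pool.Agent.H622R3.SM
open Pool.Agent.R533.GU Pool.Agent.K7.H40.NU

/-- The program `prog m n` first, then `α` for the dimensions `f₁ m n`, `f₂ m n`. -/
def pre (prog : ℕ → ℕ → List Instr) (f₁ f₂ : ℕ → ℕ → ℕ) (α : Alg) : Alg := fun m n h =>
  ((if h = [] then prog m n else []) ++ (α (f₁ m n) (f₂ m n) h).1, (α (f₁ m n) (f₂ m n) h).2)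

theorem pre_poly (prog : ℕ → ℕ → List Instr) (f₁ f₂ : ℕ → ℕ → ℕ) (α : Alg)
    (hα : PolyControl α) (h1 : UPoly (fun p : HistIn => f₁ p.1.1.length p.1.2.length))
    (h2 : UPoly (fun p : HistIn => f₂ p.1.1.length p.1.2.length))
    (hp : Poly (fun p : HistIn => prog p.1.1.length p.1.2.length)) :
    PolyControl (pre prog f₁ f₂ α) := by
  have g1 : Poly (fun q : HistIn => α q.1.1.length q.1.2.length q.2) := t_COMP2 _ _ _ hα
  have g2 : Poly (fun p : HistIn => (((List.replicate (f₁ p.1.1.length p.1.2.length) (),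
      List.replicate (f₂ p.1.1.length p.1.2.length) ()), p.2) : HistIn)) :=
    Poly.pair (Poly.pair h1 h2) (Poly.snd Poly.id)
  have g3 : Poly (fun p : HistIn => α (f₁ p.1.1.length p.1.2.length)
      (f₂ p.1.1.length p.1.2.length) p.2) := (g1.comp g2).congr fun p => by
    simp only [List.length_replicate]
  refine t_COMP _ _ _ ?_
  unfold pre
  exact Poly.pair (Poly.append (Poly.ite (by fun_prop) hp (NPC.Poly.const _)) (Poly.fst g3))
    (Poly.snd g3)

theorem pre_free (prog : ℕ → ℕ → List Instr) (f₁ f₂ : ℕ → ℕ → ℕ) (α : Alg)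
    (h : OracleFree α) : OracleFree (pre prog f₁ f₂ α) :=
  fun m n l w => h (f₁ m n) (f₂ m n) l w

/-- What is needed of a reduction from the class `C` to the class `C'`. -/
def IsRed (C C' : ∀ m n : ℕ, Matrix (Fin m) (Fin n) ℝ → (Fin m → ℝ) → Prop)
    (prog : ℕ → ℕ → List Instr) (f₁ f₂ : ℕ → ℕ → ℕ) (q : Polynomial ℕ) : Prop :=
  ∀ m n : ℕ, 1 ≤ m → 1 ≤ n → 1 ≤ f₁ m n ∧ 1 ≤ f₂ m n ∧ f₁ m n + f₂ m n ≤ q.eval (m + n) ∧
    ∀ (A : Matrix (Fin m) (Fin n) ℝ) (b : Fin m → ℝ), C m n A b →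
      ∃ (A' : Matrix (Fin (f₁ m n)) (Fin (f₂ m n)) ℝ) (b' : Fin (f₁ m n) → ℝ) (vals : List ℝ),
        exec (prog m n) (start A b) = some (start A' b', vals) ∧
        vals.length ≤ q.eval (m + n) ∧ C' (f₁ m n) (f₂ m n) A' b' ∧
        ((∃ z, b' ≤ A'.mulVec z) ↔ ∃ x, b ≤ A.mulVec x) ∧
        ∀ L : ℕ, m + n ≤ L → (∀ i j, Sm L (ext A b i j)) →
          (∀ v ∈ vals, Sm (q.eval L) v) ∧ (∀ i j, Sm (q.eval L) (A' i j)) ∧
          ∀ i, Sm (q.eval L) (b' i)

theorem pre_decides {C C' : ∀ m n : ℕ, Matrix (Fin m) (Fin n) ℝ → (Fin m → ℝ) → Prop}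
    {prog : ℕ → ℕ → List Instr} {f₁ f₂ : ℕ → ℕ → ℕ} {q : Polynomial ℕ}
    (hred : IsRed C C' prog f₁ f₂ q) (O : Set (List Bool)) (α : Alg) (h : DecidesOn O C' α) :
    DecidesOn O C (pre prog f₁ f₂ α) := by
  obtain ⟨p, hp⟩ := h
  refine ⟨p.comp q + q + (1 + Polynomial.C 2 * q) +
    p.comp ((q * q + q) * (1 + Polynomial.C 2 * q)), fun m n hm hn A b hC => ?_⟩
  obtain ⟨n1, n2, n3, hr⟩ := hred m n hm hn
  obtain ⟨A', b', vals, r1, r2, r3, r4, r5⟩ := hr A b hC
  obtain ⟨ans, nums, steps, h1, h2, h3, h4⟩ := hp (f₁ m n) (f₂ m n) n1 n2 A' b' r3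
  have hq : ∀ x, (p.comp q + q + (1 + Polynomial.C 2 * q) +
      p.comp ((q * q + q) * (1 + Polynomial.C 2 * q))).eval x =
      p.eval (q.eval x) + q.eval x + (1 + 2 * q.eval x) +
        p.eval ((q.eval x * q.eval x + q.eval x) * (1 + 2 * q.eval x)) := by
    intro x
    simp only [Polynomial.eval_add, Polynomial.eval_mul, Polynomial.eval_C, Polynomial.eval_one,
      Polynomial.eval_comp]
  have hpe : p.eval (f₁ m n + f₂ m n) ≤ p.eval (q.eval (m + n)) := pmono p n3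
  have hq1 := hq (m + n)
  refine ⟨ans, vals ++ nums, vals.length + steps, ?_, ?_, ?_, ?_⟩
  · have h5 := TELIM.run_mono O _ _ _ _ _ h1 _ (show p.eval (f₁ m n + f₂ m n) ≤
      (p.comp q + q + (1 + Polynomial.C 2 * q) +
        p.comp ((q * q + q) * (1 + Polynomial.C 2 * q))).eval (m + n) by omega)
    have h6 := run_before O (pre prog f₁ f₂ α m n) (α (f₁ m n) (f₂ m n)) (prog m n)
      (start A b) _ _ r1 (fun h hh => by
        unfold pre
        rw [if_neg hh, List.nil_append]) (by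
        unfold pre
        rw [if_pos rfl]) ((p.comp q + q + (1 + Polynomial.C 2 * q) +
        p.comp ((q * q + q) * (1 + Polynomial.C 2 * q))).eval (m + n))
    rw [h6, h5]
    rfl
  · rw [h2]
    exact r4
  · omega
  · intro Aq bq hA hb v hv
    have hL := add_le_inputLength hm Aq bq
    have hS := sm_ext A b hm hn Aq bq hA hb
    obtain ⟨s1, s2, s3⟩ := r5 _ hL hS
    have hq2 := hq (inputLength Aq bq)
    rcases List.mem_append.mp hv with hv | hv
    · obtain ⟨r, hr1, hr2⟩ := (s1 v hv).bit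
      exact ⟨r, hr1, by omega⟩
    · choose A'' g1 g2 using fun i j => (s2 i j).bit
      choose b'' g3 g4 using fun i => (s3 i).bit
      obtain ⟨r, hr1, hr2⟩ := h4 A'' b'' g1 g3 v hv
      refine ⟨r, hr1, hr2.trans ?_⟩
      have e1 : ∑ i, ∑ j, bitLength (A'' i j) ≤ ∑ i : Fin (f₁ m n), ∑ j : Fin (f₂ m n),
          (1 + 2 * q.eval (inputLength Aq bq)) :=
        Finset.sum_le_sum fun i _ => Finset.sum_le_sum fun j _ => g2 i j
      have e2 : ∑ i, bitLength (b'' i) ≤ ∑ i : Fin (f₁ m n),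
          (1 + 2 * q.eval (inputLength Aq bq)) := Finset.sum_le_sum fun i _ => g4 i
      simp only [Finset.sum_const, Finset.card_univ, Fintype.card_fin, smul_eq_mul] at e1 e2
      have hn1 : f₁ m n + f₂ m n ≤ q.eval (inputLength Aq bq) := n3.trans (pmono q hL)
      have e3 : inputLength A'' b'' ≤ (q.eval (inputLength Aq bq) * q.eval (inputLength Aq bq) +
          q.eval (inputLength Aq bq)) * (1 + 2 * q.eval (inputLength Aq bq)) := by
        have e4 : f₁ m n * f₂ m n + f₁ m n ≤ q.eval (inputLength Aq bq) *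
            q.eval (inputLength Aq bq) + q.eval (inputLength Aq bq) :=
          Nat.add_le_add (Nat.mul_le_mul (by omega) (by omega)) (by omega)
        refine le_trans ?_ (Nat.mul_le_mul_right _ e4)
        have e0 : inputLength A'' b'' = ∑ i, ∑ j, bitLength (A'' i j) + ∑ i, bitLength (b'' i) :=
          rfl
        rw [e0, add_mul, mul_assoc]
        exact Nat.add_le_add e1 e2
      have e5 := pmono p e3
      omega

/-- The equivalence of the problems for two classes. -/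
theorem red_iff {C C' : ∀ m n : ℕ, Matrix (Fin m) (Fin n) ℝ → (Fin m → ℝ) → Prop}
    {prog : ℕ → ℕ → List Instr} {f₁ f₂ : ℕ → ℕ → ℕ} {q : Polynomial ℕ}
    (hred : IsRed C C' prog f₁ f₂ q) (hsub : ∀ m n A b, C' m n A b → C m n A b)
    (h1 : UPoly (fun p : HistIn => f₁ p.1.1.length p.1.2.length))
    (h2 : UPoly (fun p : HistIn => f₂ p.1.1.length p.1.2.length))
    (hp : Poly (fun p : HistIn => prog p.1.1.length p.1.2.length)) (O : Set (List Bool)) :
    ((∃ α : Alg, PolyControl α ∧ DecidesOn O C' α) ↔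
      ∃ α : Alg, PolyControl α ∧ DecidesOn O C α) ∧
    ((∃ α : Alg, PolyControl α ∧ OracleFree α ∧ DecidesOn O C' α) ↔
      ∃ α : Alg, PolyControl α ∧ OracleFree α ∧ DecidesOn O C α) := by
  have hr : ∀ α : Alg, DecidesOn O C α → DecidesOn O C' α := by
    rintro α ⟨p, hp⟩
    exact ⟨p, fun m n hm hn A b hC => hp m n hm hn A b (hsub m n A b hC)⟩
  refine ⟨⟨?_, ?_⟩, ⟨?_, ?_⟩⟩
  · rintro ⟨α, g1, g2⟩
    exact ⟨pre prog f₁ f₂ α, pre_poly prog f₁ f₂ α g1 h1 h2 hp, pre_decides hred O α g2⟩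
  · rintro ⟨α, g1, g2⟩
    exact ⟨α, g1, hr α g2⟩
  · rintro ⟨α, g1, g2, g3⟩
    exact ⟨pre prog f₁ f₂ α, pre_poly prog f₁ f₂ α g1 h1 h2 hp, pre_free prog f₁ f₂ α g2,
      pre_decides hred O α g3⟩
  · rintro ⟨α, g1, g2, g3⟩
    exact ⟨α, g1, g2, hr α g3⟩

end Pool.Agent.K7.H40.PU
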