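import Pool.Agent.K7.H40.PU.Prog

set_option autoImplicit false

/-! The store after the program. -/

namespace Pool.Agent.K7.H40.PU

open Pool.Agent.NPC Pool.Agent.H558R2 Pool.Agent.H622R3.SM
open Pool.Agent.R533.GU Pool.Agent.K7.H40.NU

/-- The first part. -/
def pr1 (T m n : ℕ) : List Instr :=
  ph1 m n ++ (ph2 m n ++ ([⟨Op.add, [6, 0], [2], [3]⟩] ++ (ph3 m n ++
    ([⟨Op.add, [7, 0], [2], [2]⟩] ++ ([⟨Op.div, [7, 1], [2], [7, 0]⟩] ++
    ([⟨Op.add, [8, 0], [2], [3]⟩] ++ (ph5 T ++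
    ([⟨Op.div, [9], [8, T + 1], [6, m * (n + 1)]⟩] ++ ph7 m n))))))))

/-- The instruction for an entry. -/
def enI (m n N I J : ℕ) : Instr :=
  ⟨if eC m n N I J = 2 then Op.sub else Op.add, [0, I, J],
    if eC m n N I J = 1 then [2] else if eC m n N I J = 3 then [11, tx n I] else [3],
    if eC m n N I J = 2 then [2] else [3]⟩

/-- Writing the matrix. -/
def pr2a (m n N : ℕ) : List Instr :=
  (List.range ((N + 1) * N)).map fun t => enI m n N (t / N) (t % N)

/-- Writing the right-hand side. -/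
def pr2b (N : ℕ) : List Instr := (List.range (N + 1)).map fun I =>
  ⟨Op.add, [1, I], if I < N then [3] else [2], [3]⟩

/-- Cleaning up. -/
def pr3 (T m n : ℕ) : List Instr := (pr1 T m n).map fun I => ⟨Op.sub, I.dst, [3], [3]⟩

/-- The program. -/
def prg (T N m n : ℕ) : List Instr :=
  pr1 T m n ++ (pr2a m n N ++ (pr2b N ++ pr3 T m n))

/-- The values of the registers. -/
noncomputable def V1 (T : ℕ) {m n : ℕ} (A : Matrix (Fin m) (Fin n) ℝ) (b : Fin m → ℝ) : Reg → ℝ
  | [4, t] => ext A b (t / (n + 1)) (t % (n + 1))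
  | [5, t] => ext A b (t / (n + 1)) (t % (n + 1)) * ext A b (t / (n + 1)) (t % (n + 1))
  | [6, t] => ssum A b t
  | [7, 0] => 2
  | [7, 1] => 1 / 2
  | [8, t] => (1 / 2) ^ t
  | [9] => th T A b
  | [11, t] => th T A b * ext A b (t / (n + 1)) (t % (n + 1))
  | r => start A b r

variable {m n : ℕ} (T N : ℕ) (A : Matrix (Fin m) (Fin n) ℝ) (b : Fin m → ℝ)

theorem V1_D0 (r : Reg) (hr : r ∈ D0) : start A b r = V1 T A b r := by
  rcases hr with ⟨i, j, rfl⟩ | ⟨i, rfl⟩ | rfl | rfl <;> rfl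

theorem pr1_good : Good (V1 T A b) (pr1 T m n) D0 := by
  have h2 : ([2] : Reg) ∈ D0 := Or.inr (Or.inr (Or.inl rfl))
  have h3 : ([3] : Reg) ∈ D0 := Or.inr (Or.inr (Or.inr rfl))
  have d1 : ∀ t, t < m * (n + 1) → ∃ I ∈ ph1 m n, I.dst = [4, t] := fun t ht =>
    ⟨_, List.mem_map.mpr ⟨t, List.mem_range.mpr ht, rfl⟩, rfl⟩
  have d2 : ∀ t, t < m * (n + 1) → ∃ I ∈ ph2 m n, I.dst = [5, t] := fun t ht =>
    ⟨_, List.mem_map.mpr ⟨t, List.mem_range.mpr ht, rfl⟩, rfl⟩
  have d3 : ∀ t, t < m * (n + 1) → ∃ I ∈ ph3 m n, I.dst = [6, t + 1] := fun t ht =>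
    ⟨_, List.mem_map.mpr ⟨t, List.mem_range.mpr ht, rfl⟩, rfl⟩
  have d5 : ∀ t, t < T + 1 → ∃ I ∈ ph5 T, I.dst = [8, t + 1] := fun t ht =>
    ⟨_, List.mem_map.mpr ⟨t, List.mem_range.mpr ht, rfl⟩, rfl⟩
  unfold pr1
  refine good_append (good_par fun I hI => ?_) ?_
  · obtain ⟨t, ht, rfl⟩ := List.mem_map.mp hI
    have ht := List.mem_range.mp ht
    have hi : t / (n + 1) < m := Nat.div_lt_of_lt_mul (by rwa [Nat.mul_comm])
    by_cases h : t % (n + 1) < n
    · refine ⟨?_, ?_, ?_, ?_⟩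
      · simp only [if_pos h]; exact Or.inl ⟨_, _, rfl⟩
      · simp only [if_pos h]; exact h3
      · simp only [if_pos h]
        change ext A b _ _ = (if h' : t / (n + 1) < m ∧ t % (n + 1) < n then
          A ⟨_, h'.1⟩ ⟨_, h'.2⟩ else 0) + 0
        rw [add_zero, ext, dif_pos hi, dif_pos h, dif_pos ⟨hi, h⟩]
      · simp only [if_pos h]; nofun
    · have hn : t % (n + 1) = n := by have := Nat.mod_lt t (show n + 1 > 0 by omega); omega
      refine ⟨?_, ?_, ?_, ?_⟩
      · simp only [if_neg h]; exact h3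
      · simp only [if_neg h]; exact Or.inr (Or.inl ⟨_, rfl⟩)
      · simp only [if_neg h]
        change ext A b _ _ = 0 - (if h' : t / (n + 1) < m then b ⟨_, h'⟩ else 0)
        rw [ext, dif_pos hi, dif_neg h, if_pos hn, dif_pos hi, zero_sub]
      · simp only [if_neg h]; nofun
  refine good_append (good_par fun I hI => ?_) ?_
  · obtain ⟨t, ht, rfl⟩ := List.mem_map.mp hI
    exact ⟨Or.inr (d1 t (List.mem_range.mp ht)), Or.inr (d1 t (List.mem_range.mp ht)), rfl,
      nofun⟩
  refine good_append (good_par fun I hI => ?_) ?_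
  · rw [List.mem_singleton] at hI
    subst hI
    refine ⟨Or.inl (Or.inl h2), Or.inl (Or.inl h3), ?_, nofun⟩
    change (1 : ℝ) = 1 + 0
    norm_num
  refine good_append (good_range _ _ fun s hs => ?_) ?_
  · refine ⟨?_, Or.inl (Or.inl (Or.inr (d2 s hs))), rfl, nofun⟩
    cases s with
    | zero => exact Or.inl (Or.inr ⟨_, List.mem_singleton.mpr rfl, rfl⟩)
    | succ s => exact Or.inr ⟨s, by omega, rfl⟩
  refine good_append (good_par fun I hI => ?_) ?_
  · rw [List.mem_singleton] at hI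
    subst hI
    refine ⟨?_, ?_, ?_, nofun⟩
    · exact Or.inl (Or.inl (Or.inl (Or.inl h2)))
    · exact Or.inl (Or.inl (Or.inl (Or.inl h2)))
    · change (2 : ℝ) = 1 + 1
      norm_num
  refine good_append (good_par fun I hI => ?_) ?_
  · rw [List.mem_singleton] at hI
    subst hI
    refine ⟨?_, ?_, rfl, ?_⟩
    · exact Or.inl (Or.inl (Or.inl (Or.inl (Or.inl h2))))
    · exact Or.inr ⟨_, List.mem_singleton.mpr rfl, rfl⟩
    · intro _
      change (2 : ℝ) ≠ 0
      norm_num
  refine good_append (good_par fun I hI => ?_) ?_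
  · rw [List.mem_singleton] at hI
    subst hI
    refine ⟨?_, ?_, ?_, nofun⟩
    · exact Or.inl (Or.inl (Or.inl (Or.inl (Or.inl (Or.inl h2)))))
    · exact Or.inl (Or.inl (Or.inl (Or.inl (Or.inl (Or.inl h3)))))
    · change ((1 : ℝ) / 2) ^ 0 = 1 + 0
      norm_num
  refine good_append (good_range _ _ fun s hs => ?_) ?_
  · refine ⟨?_, ?_, ?_, nofun⟩
    · cases s with
      | zero => exact Or.inl (Or.inr ⟨_, List.mem_singleton.mpr rfl, rfl⟩)
      | succ s => exact Or.inr ⟨s, by omega, rfl⟩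
    · exact Or.inl (Or.inl (Or.inr ⟨_, List.mem_singleton.mpr rfl, rfl⟩))
    · change ((1 : ℝ) / 2) ^ (s + 1) = (1 / 2) ^ s * (1 / 2)
      rw [pow_succ]
  refine good_append (good_par fun I hI => ?_) (good_par fun I hI => ?_)
  · rw [List.mem_singleton] at hI
    subst hI
    refine ⟨?_, ?_, rfl, ?_⟩
    · exact Or.inr (d5 _ (by omega))
    · refine Or.inl (Or.inl (Or.inl (Or.inl ?_)))
      rcases Nat.eq_zero_or_pos (m * (n + 1)) with h0 | h0
      · rw [h0]
        exact Or.inl (Or.inr ⟨_, List.mem_singleton.mpr rfl, rfl⟩)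
      · obtain ⟨t, ht⟩ : ∃ t, m * (n + 1) = t + 1 := ⟨m * (n + 1) - 1, by omega⟩
        have := d3 t (by omega)
        rw [← ht] at this
        exact Or.inr this
    · intro _
      change ssum A b _ ≠ 0
      have := one_le_ssum A b (m * (n + 1))
      linarith
  · obtain ⟨t, ht, rfl⟩ := List.mem_map.mp hI
    have ht := List.mem_range.mp ht
    refine ⟨?_, ?_, rfl, nofun⟩
    · exact Or.inr ⟨_, List.mem_singleton.mpr rfl, rfl⟩
    · exact Or.inl (Or.inl (Or.inl (Or.inl (Or.inl (Or.inl (Or.inl (Or.inl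
        (Or.inr (d1 t ht)))))))))

/-- The values after the second part. -/
noncomputable def V2 (T N : ℕ) {m n : ℕ} (A : Matrix (Fin m) (Fin n) ℝ) (b : Fin m → ℝ) :
    Reg → ℝ
  | [0, I, J] => start (nA T N A b) (nb N) [0, I, J]
  | [1, I] => start (nA T N A b) (nb N) [1, I]
  | [2] => 1
  | [3] => 0
  | [11, t] => th T A b * ext A b (t / (n + 1)) (t % (n + 1))
  | _ => 0

/-- The registers used in the second part. -/
def E2 (m n : ℕ) : Set Reg := {r | r = [2] ∨ r = [3] ∨ ∃ t, t < m * (n + 1) ∧ r = [11, t]}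

theorem eC_three {I J : ℕ} (h : eC m n N I J = 3) : Ok m n I := by
  by_contra hok
  unfold eC at h
  rw [if_neg (show ¬ (Ok m n I ∧ J = tc m n I) from fun h' => hok h'.1)] at h
  split_ifs at h <;> omega

theorem tx_ok {v : ℕ} (h : Ok m n v) : tx n v < m * (n + 1) ∧ tx n v / (n + 1) = v / (n + 2) ∧
    tx n v % (n + 1) = v % (n + 2) := by
  obtain ⟨h1, h2⟩ := h
  obtain ⟨i, c, hi, hc, rfl⟩ := s_form h1
  rw [s_mod _ _ _ hc] at h2
  unfold tx
  rw [s_mod _ _ _ hc, s_div _ _ _ hc]
  exact ⟨idx_lt hi h2, idx_div _ _ h2, idx_mod _ _ h2⟩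

theorem enI_good (I J : ℕ) (hI : I < N + 1) (hJ : J < N) :
    IGood (V2 T N A b) (E2 m n) (enI m n N I J) := by
  have h2 : ([2] : Reg) ∈ E2 m n := Or.inl rfl
  have h3 : ([3] : Reg) ∈ E2 m n := Or.inr (Or.inl rfl)
  have e : V2 T N A b [0, I, J] =
      R533.GU.val (dd T A b (I / (n + 2)) (I % (n + 2))) (eC m n N I J) := by
    change (if h : I < N + 1 ∧ J < N then nA T N A b ⟨I, h.1⟩ ⟨J, h.2⟩ else 0) = _
    rw [dif_pos ⟨hI, hJ⟩]
    rfl
  unfold enI
  by_cases c1 : eC m n N I J = 1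
  · refine ⟨?_, ?_, ?_, ?_⟩
    · simp only [c1, if_true]; exact h2
    · simp only [c1]; exact h3
    · rw [c1] at e
      simp only [c1, e]
      change (1 : ℝ) = 1 + 0
      norm_num
    · simp only [c1]; nofun
  by_cases c2 : eC m n N I J = 2
  · refine ⟨?_, ?_, ?_, ?_⟩
    · simp only [c2]; exact h3
    · simp only [c2]; exact h2
    · rw [c2] at e
      simp only [c2, e]
      change (-1 : ℝ) = 0 - 1
      norm_num
    · simp only [c2]; nofun
  by_cases c3 : eC m n N I J = 3
  · obtain ⟨t1, t2, t3⟩ := tx_ok (eC_three N c3)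
    refine ⟨?_, ?_, ?_, ?_⟩
    · simp only [c3]; exact Or.inr (Or.inr ⟨_, t1, rfl⟩)
    · simp only [c3]; exact h3
    · rw [c3] at e
      simp only [c3, e]
      change th T A b * ext A b _ _ =
        th T A b * ext A b (tx n I / (n + 1)) (tx n I % (n + 1)) + 0
      rw [t2, t3, add_zero]
    · simp only [c3]; nofun
  · refine ⟨?_, ?_, ?_, ?_⟩
    · simp only [c1, c3, if_false]; exact h3
    · simp only [c2, if_false]; exact h3
    · simp only [c1, c2, c3, if_false, e]
      change R533.GU.val _ _ = (0 : ℝ) + 0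
      unfold R533.GU.val
      rw [if_neg c1, if_neg c2, if_neg c3, add_zero]
    · simp only [c2, if_false]; nofun

theorem pr2_good : Good (V2 T N A b) (pr2a m n N ++ pr2b N) (E2 m n) := by
  have h2 : ([2] : Reg) ∈ E2 m n := Or.inl rfl
  have h3 : ([3] : Reg) ∈ E2 m n := Or.inr (Or.inl rfl)
  refine good_par fun I hI => ?_
  rcases List.mem_append.mp hI with hI | hI
  · obtain ⟨t, ht, rfl⟩ := List.mem_map.mp hI
    have ht := List.mem_range.mp ht
    have hN : 0 < N := by
      rcases Nat.eq_zero_or_pos N with h | h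
      · rw [h] at ht; omega
      · exact h
    exact enI_good T N A b _ _ (Nat.div_lt_of_lt_mul (by rwa [Nat.mul_comm])) (Nat.mod_lt _ hN)
  · obtain ⟨t, ht, rfl⟩ := List.mem_map.mp hI
    have ht := List.mem_range.mp ht
    refine ⟨?_, h3, ?_, nofun⟩
    · by_cases h : t < N
      · simp only [if_pos h]; exact h3
      · simp only [if_neg h]; exact h2
    · have e : V2 T N A b [1, t] = if t < N then 0 else 1 := by
        change (if h : t < N + 1 then nb N ⟨t, h⟩ else 0) = _
        rw [dif_pos ht]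
        rfl
      simp only [e]
      by_cases h : t < N
      · simp only [if_pos h]
        change (0 : ℝ) = 0 + 0
        norm_num
      · simp only [if_neg h]
        change (1 : ℝ) = 1 + 0
        norm_num

/-- The targets of the first part. -/
theorem pr1_dst (r : Reg) (hr : r ∈ (pr1 T m n).map Instr.dst) :
    ∃ a l, r = a :: l ∧ 4 ≤ a := by
  obtain ⟨I, hI, rfl⟩ := List.mem_map.mp hr
  simp only [pr1, ph1, ph2, ph3, ph5, ph7, List.mem_append, List.mem_map,
    List.mem_singleton] at hI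
  rcases hI with ⟨t, -, rfl⟩ | ⟨t, -, rfl⟩ | rfl | ⟨t, -, rfl⟩ | rfl | rfl | rfl | ⟨t, -, rfl⟩ |
    rfl | ⟨t, -, rfl⟩ <;> exact ⟨_, _, rfl, by omega⟩

/-- The targets of the second part. -/
theorem pr2_dst (r : Reg) :
    r ∈ (pr2a m n N ++ pr2b N).map Instr.dst ↔
      (∃ I J, I < N + 1 ∧ J < N ∧ r = [0, I, J]) ∨ ∃ I, I < N + 1 ∧ r = [1, I] := by
  rw [List.map_append, List.mem_append]
  refine or_congr ?_ ?_
  · constructor
    · intro h
      obtain ⟨I, hI, rfl⟩ := List.mem_map.mp h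
      obtain ⟨t, ht, rfl⟩ := List.mem_map.mp hI
      have ht := List.mem_range.mp ht
      have hN : 0 < N := by
        rcases Nat.eq_zero_or_pos N with h | h
        · rw [h] at ht; omega
        · exact h
      exact ⟨_, _, Nat.div_lt_of_lt_mul (by rwa [Nat.mul_comm]), Nat.mod_lt _ hN, rfl⟩
    · rintro ⟨I, J, hI, hJ, rfl⟩
      refine List.mem_map.mpr ⟨enI m n N I J, List.mem_map.mpr ⟨N * I + J, ?_, ?_⟩, rfl⟩
      · rw [List.mem_range]
        have h1 : N * (I + 1) ≤ N * (N + 1) := Nat.mul_le_mul_left _ hI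
        rw [Nat.mul_succ] at h1
        rw [Nat.mul_comm (N + 1) N]
        omega
      · rw [Nat.mul_add_div (by omega), Nat.div_eq_of_lt hJ, add_zero, Nat.mul_add_mod,
          Nat.mod_eq_of_lt hJ]
  · constructor
    · intro h
      obtain ⟨I, hI, rfl⟩ := List.mem_map.mp h
      obtain ⟨t, ht, rfl⟩ := List.mem_map.mp hI
      exact ⟨t, List.mem_range.mp ht, rfl⟩
    · rintro ⟨I, hI, rfl⟩
      exact List.mem_map.mpr ⟨_, List.mem_map.mpr ⟨I, List.mem_range.mpr hI, rfl⟩, rfl⟩

/-- The values computed. -/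
noncomputable def vls (T N : ℕ) {m n : ℕ} (A : Matrix (Fin m) (Fin n) ℝ) (b : Fin m → ℝ) :
    List ℝ :=
  ((pr1 T m n).map fun I => V1 T A b I.dst) ++
    (((pr2a m n N ++ pr2b N).map fun I => V2 T N A b I.dst) ++
    ((pr3 T m n).map fun _ => (0 : ℝ)))

theorem pr12 : exec (pr1 T m n ++ (pr2a m n N ++ pr2b N))
    (start A b) = some (fun r =>
      if r ∈ (pr2a m n N ++ pr2b N).map Instr.dst then V2 T N A b r
      else if r ∈ (pr1 T m n).map Instr.dst then V1 T A b r else start A b r,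
      ((pr1 T m n).map fun I => V1 T A b I.dst) ++
        (pr2a m n N ++ pr2b N).map fun I => V2 T N A b I.dst) := by
  have h1 := exec_good (V1 T A b) (pr1 T m n) D0 (start A b) (V1_D0 T A b) (pr1_good T A b)
  rw [TELIM.exec_append _ _ _ _ _ h1]
  rw [exec_good (V2 T N A b) _ (E2 m n) _ ?_ (pr2_good T N A b)]
  · rfl
  · rintro r (rfl | rfl | ⟨t, ht, rfl⟩)
    · rw [if_neg]
      · rfl
      · intro h
        obtain ⟨a, l, h1, h2⟩ := pr1_dst T _ h
        simp only [List.cons.injEq] at h1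
        omega
    · rw [if_neg]
      · rfl
      · intro h
        obtain ⟨a, l, h1, h2⟩ := pr1_dst T _ h
        simp only [List.cons.injEq] at h1
        omega
    · rw [if_pos]
      · rfl
      · refine List.mem_map.mpr ⟨⟨Op.mul, [11, t], [9], [4, t]⟩, ?_, rfl⟩
        simp only [pr1, List.mem_append]
        iterate 9 refine Or.inr ?_
        exact List.mem_map.mpr ⟨t, List.mem_range.mpr ht, rfl⟩

/-- **The program writes the new system.** -/
theorem exec_prg (hN : nB m n + 1 ≤ N) : exec (prg T N m n) (start A b) =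
    some (start (nA T N A b) (nb N), vls T N A b) := by
  have e : prg T N m n = (pr1 T m n ++ (pr2a m n N ++ pr2b N)) ++ pr3 T m n := by
    unfold prg
    simp only [List.append_assoc]
  rw [e, TELIM.exec_append _ _ _ _ _ (pr12 T N A b)]
  have h3 : Good (fun _ => (0 : ℝ)) (pr3 T m n) {[3]} := by
    refine good_par fun I hI => ?_
    obtain ⟨J, -, rfl⟩ := List.mem_map.mp hI
    refine ⟨rfl, rfl, ?_, nofun⟩
    change (0 : ℝ) = 0 - 0
    norm_num
  have nm : ∀ r : Reg, (∀ a l, r = a :: l → a < 4) → r ∉ (pr1 T m n).map Instr.dst := by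
    intro r hr h
    obtain ⟨a, l, h1, h2⟩ := pr1_dst T _ h
    have := hr a l h1
    omega
  rw [exec_good _ _ {[3]} _ ?_ h3]
  · simp only [Option.map_some, Option.some.injEq, Prod.mk.injEq]
    refine ⟨?_, ?_⟩
    · have ed : (pr3 T m n).map Instr.dst = (pr1 T m n).map Instr.dst := by
        unfold pr3
        rw [List.map_map]
        rfl
      rw [ed]
      have hm : m ≤ N := by
        unfold nB at hN
        nlinarith [Nat.zero_le (m * n)]
      have hn : n ≤ N := by
        unfold nB at hN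
        nlinarith [Nat.zero_le (m * n)]
      funext r
      by_cases h1 : r ∈ (pr1 T m n).map Instr.dst
      · rw [if_pos h1]
        obtain ⟨a, l, rfl, h2⟩ := pr1_dst T _ h1
        obtain ⟨a, rfl⟩ : ∃ a', a = a' + 4 := ⟨a - 4, by omega⟩
        rfl
      · rw [if_neg h1]
        simp only [if_neg h1]
        by_cases h2 : r ∈ (pr2a m n N ++ pr2b N).map Instr.dst
        · rw [if_pos h2]
          rcases (pr2_dst N r).mp h2 with ⟨I, J, -, -, rfl⟩ | ⟨I, -, rfl⟩ <;> rfl
        · rw [if_neg h2]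
          rw [pr2_dst, not_or] at h2
          obtain ⟨h3, h4⟩ := h2
          unfold start
          split
          · rename_i i j
            rw [dif_neg, dif_neg]
            · exact fun h => h3 ⟨i, j, h.1, h.2, rfl⟩
            · exact fun h => h3 ⟨i, j, by omega, by omega, rfl⟩
          · rename_i i
            rw [dif_neg, dif_neg]
            · exact fun h => h4 ⟨i, h, rfl⟩
            · exact fun h => h4 ⟨i, by omega, rfl⟩
          · rfl
          · rfl
    · unfold vls
      simp only [List.append_assoc]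
  · rintro r rfl
    rw [if_neg, if_neg]
    · rfl
    · refine nm _ fun a l h => ?_
      simp only [List.cons.injEq] at h
      omega
    · rw [pr2_dst]
      rintro (⟨I, J, -, -, h⟩ | ⟨I, -, h⟩)
      · simp at h
      · simp at h

/-! ### Encoding lengths -/

/-- The bound. -/
def hg (T m n L : ℕ) : ℕ := 10 * (T + 1) + 10 + m * (n + 1) * (2 * L + 1) + 5 * L

variable {T N A b}

theorem sm_th {L : ℕ} (hA : ∀ i j, Sm L (ext A b i j)) :
    Sm (2 * (T + 1) + 2 + m * (n + 1) * (2 * L + 1)) (th T A b) := by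
  have h0 := one_le_ssum A b (m * (n + 1))
  unfold th
  exact ((sm_pow _).div (sm_ssum A b hA _) (by linarith)).mono (by omega)

theorem sm_dd {L : ℕ} (hA : ∀ i j, Sm L (ext A b i j)) (i j : ℕ) :
    Sm (hg T m n L) (dd T A b i j) := by
  unfold hg dd
  exact ((sm_th hA).mul (hA i j)).mono (by omega)

theorem sm_nA {L : ℕ} (hA : ∀ i j, Sm L (ext A b i j)) (I : Fin (N + 1)) (J : Fin N) :
    Sm (hg T m n L) (nA T N A b I J) := by
  unfold nA R533.GU.val
  have h1 : 1 ≤ hg T m n L := by unfold hg; omega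
  split_ifs
  · exact sm_one.mono h1
  · exact (sm_one.neg).mono h1
  · exact sm_dd hA _ _
  · exact sm_zero.mono h1

theorem sm_nb (L : ℕ) (I : Fin (N + 1)) : Sm (hg T m n L) (nb N I) := by
  have h1 : 1 ≤ hg T m n L := by unfold hg; omega
  unfold nb
  split_ifs
  · exact sm_zero.mono h1
  · exact sm_one.mono h1

theorem sm_vls {L : ℕ} (hA : ∀ i j, Sm L (ext A b i j)) :
    ∀ v ∈ vls T N A b, Sm (hg T m n L) v := by
  have h1 : 2 ≤ hg T m n L := by unfold hg; omega
  intro v hv
  unfold vls at hv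
  rw [List.mem_append, List.mem_append] at hv
  rcases hv with hv | hv | hv
  · obtain ⟨I, hI, rfl⟩ := List.mem_map.mp hv
    simp only [pr1, ph1, ph2, ph3, ph5, ph7, List.mem_append, List.mem_map,
      List.mem_singleton, List.mem_range] at hI
    rcases hI with ⟨t, -, rfl⟩ | ⟨t, -, rfl⟩ | rfl | ⟨t, ht, rfl⟩ | rfl | rfl | rfl |
      ⟨t, ht, rfl⟩ | rfl | ⟨t, -, rfl⟩
    · exact (hA _ _).mono (by unfold hg; omega)
    · exact ((hA _ _).mul (hA _ _)).mono (by unfold hg; omega)
    · exact (sm_ssum A b hA 0).mono (by unfold hg; omega)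
    · refine (sm_ssum A b hA (t + 1)).mono ?_
      have h2 : (t + 1) * (2 * L + 1) ≤ m * (n + 1) * (2 * L + 1) := Nat.mul_le_mul_right _ ht
      unfold hg
      omega
    · exact sm_two.mono h1
    · exact sm_half.mono h1
    · exact (sm_pow 0).mono (by unfold hg; omega)
    · exact (sm_pow (t + 1)).mono (by unfold hg; omega)
    · exact (sm_th hA).mono (by unfold hg; omega)
    · exact ((sm_th hA).mul (hA _ _)).mono (by unfold hg; omega)
  · obtain ⟨I, hI, rfl⟩ := List.mem_map.mp hv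
    have h2 := (pr2_dst (m := m) (n := n) N I.dst).mp (List.mem_map.mpr ⟨I, hI, rfl⟩)
    rcases h2 with ⟨I', J', hI', hJ', h3⟩ | ⟨I', hI', h3⟩
    · rw [h3]
      change Sm _ (if h : I' < N + 1 ∧ J' < N then nA T N A b ⟨I', h.1⟩ ⟨J', h.2⟩ else 0)
      rw [dif_pos ⟨hI', hJ'⟩]
      exact sm_nA hA _ _
    · rw [h3]
      change Sm _ (if h : I' < N + 1 then nb N ⟨I', h⟩ else 0)
      rw [dif_pos hI']
      exact sm_nb L _
  · obtain ⟨I, hI, rfl⟩ := List.mem_map.mp hv
    exact sm_zero.mono (by omega)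

theorem vls_length (T N : ℕ) (A : Matrix (Fin m) (Fin n) ℝ) (b : Fin m → ℝ) :
    (vls T N A b).length = 2 * (4 * (m * (n + 1)) + T + 6) + ((N + 1) * N + (N + 1)) := by
  simp only [vls, pr1, pr2a, pr2b, pr3, ph1, ph2, ph3, ph5, ph7, List.length_append,
    List.length_map, List.length_range, List.length_cons, List.length_nil]
  ring

end Pool.Agent.K7.H40.PU
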