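import Pool.Agent.K7.H40.PU.Red
import Pool.Agent.K7.H40.PU.Defs

set_option autoImplicit false

/-! The new system: indices, the permutation, solvability. -/

namespace Pool.Agent.K7.H40.PU

open Pool.Agent.NPC Pool.Agent.H558R2 Pool.Agent.H622R3.SM
open Pool.Agent.R533.GU Pool.Agent.K7.H40.NU

/-! ### Indices -/

/-- The number of the unknowns of the first kind. -/
def aB (m n : ℕ) : ℕ := m * (n + 2)

/-- The number of the unknowns. -/
def nB (m n : ℕ) : ℕ := m * (n + 2) + (m + 1) * (n + 1)

/-- The permutation. -/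
def nx (m n v : ℕ) : ℕ :=
  if v < aB m n then (if v % (n + 2) < n + 1 then v + 1 else v - (n + 1))
  else if v < nB m n then (if (v - aB m n) / (n + 1) < m then v + (n + 1) else v - m * (n + 1))
  else v

/-- Its inverse. -/
def pv (m n v : ℕ) : ℕ :=
  if v < aB m n then (if v % (n + 2) = 0 then v + (n + 1) else v - 1)
  else if v < nB m n then (if (v - aB m n) / (n + 1) = 0 then v + m * (n + 1) else v - (n + 1))
  else v

/-- The number of the datum. -/
def tx (n v : ℕ) : ℕ := (v / (n + 2)) * (n + 1) + v % (n + 2)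

/-- The rows with a datum. -/
def Ok (m n v : ℕ) : Prop := v < aB m n ∧ v % (n + 2) < n + 1

instance (m n v : ℕ) : Decidable (Ok m n v) := by unfold Ok; infer_instance

/-- The column of the datum. -/
def tc (m n v : ℕ) : ℕ := if Ok m n v then aB m n + tx n v else 0

theorem s_div (i c n : ℕ) (hc : c < n + 2) : (i * (n + 2) + c) / (n + 2) = i := by
  rw [Nat.mul_comm, Nat.mul_add_div (by omega), Nat.div_eq_of_lt hc, add_zero]

theorem s_mod (i c n : ℕ) (hc : c < n + 2) : (i * (n + 2) + c) % (n + 2) = c := by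
  rw [Nat.mul_comm, Nat.mul_add_mod, Nat.mod_eq_of_lt hc]

theorem s_lt {m n i c : ℕ} (hi : i < m) (hc : c < n + 2) : i * (n + 2) + c < aB m n := by
  have h1 : (i + 1) * (n + 2) ≤ m * (n + 2) := Nat.mul_le_mul_right _ hi
  have h2 : (i + 1) * (n + 2) = i * (n + 2) + (n + 2) := by ring
  unfold aB
  omega

theorem h_lt {m n i j : ℕ} (hi : i < m + 1) (hj : j < n + 1) :
    i * (n + 1) + j < (m + 1) * (n + 1) := by
  have h1 : (i + 1) * (n + 1) ≤ (m + 1) * (n + 1) := Nat.mul_le_mul_right _ hi
  have h2 : (i + 1) * (n + 1) = i * (n + 1) + (n + 1) := by ring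
  omega

theorem s_form {m n v : ℕ} (hv : v < aB m n) : ∃ i c, i < m ∧ c < n + 2 ∧ v = i * (n + 2) + c := by
  refine ⟨v / (n + 2), v % (n + 2), ?_, Nat.mod_lt _ (by omega), ?_⟩
  · unfold aB at hv
    exact Nat.div_lt_of_lt_mul (by rwa [Nat.mul_comm])
  · rw [Nat.mul_comm, Nat.div_add_mod]

theorem h_form {m n v : ℕ} (hv : aB m n ≤ v) (hv' : v < nB m n) :
    ∃ i j, i < m + 1 ∧ j < n + 1 ∧ v = aB m n + (i * (n + 1) + j) := by
  refine ⟨(v - aB m n) / (n + 1), (v - aB m n) % (n + 1), ?_, Nat.mod_lt _ (by omega), ?_⟩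
  · refine Nat.div_lt_of_lt_mul ?_
    rw [Nat.mul_comm]
    unfold nB at hv'
    unfold aB at hv ⊢
    omega
  · rw [Nat.mul_comm, Nat.div_add_mod]
    omega

theorem nx_s {m n i c : ℕ} (hi : i < m) (hc : c < n + 1) :
    nx m n (i * (n + 2) + c) = i * (n + 2) + (c + 1) := by
  unfold nx
  rw [if_pos (s_lt hi (by omega)), s_mod _ _ _ (by omega), if_pos hc]
  rfl

theorem nx_s' {m n i : ℕ} (hi : i < m) :
    nx m n (i * (n + 2) + (n + 1)) = i * (n + 2) + 0 := by
  unfold nx
  rw [if_pos (s_lt hi (by omega)), s_mod _ _ _ (by omega), if_neg (by omega)]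
  omega

theorem nx_h {m n i j : ℕ} (hi : i < m) (hj : j < n + 1) :
    nx m n (aB m n + (i * (n + 1) + j)) = aB m n + ((i + 1) * (n + 1) + j) := by
  have h := h_lt (show i < m + 1 by omega) hj
  unfold nx
  rw [if_neg (by omega), if_pos (by unfold nB; unfold aB; omega), Nat.add_sub_cancel_left,
    idx_div _ _ hj, if_pos hi]
  ring

theorem nx_h' {m n j : ℕ} (hj : j < n + 1) :
    nx m n (aB m n + (m * (n + 1) + j)) = aB m n + (0 * (n + 1) + j) := by
  have h := h_lt (show m < m + 1 by omega) hj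
  unfold nx
  rw [if_neg (by omega), if_pos (by unfold nB; unfold aB; omega), Nat.add_sub_cancel_left,
    idx_div _ _ hj, if_neg (by omega)]
  omega

theorem nx_ge {m n v : ℕ} (hv : nB m n ≤ v) : nx m n v = v := by
  have h : aB m n ≤ nB m n := by unfold aB nB; omega
  unfold nx
  rw [if_neg (by omega), if_neg (by omega)]

theorem pv_nx (m n v : ℕ) : pv m n (nx m n v) = v := by
  rcases Nat.lt_or_ge v (aB m n) with h | h
  · obtain ⟨i, c, hi, hc, rfl⟩ := s_form h
    rcases Nat.lt_or_ge c (n + 1) with h1 | h1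
    · rw [nx_s hi h1]
      unfold pv
      rw [if_pos (s_lt hi (by omega)), s_mod _ _ _ (by omega), if_neg (by omega)]
      omega
    · obtain rfl : c = n + 1 := by omega
      rw [nx_s' hi]
      unfold pv
      rw [if_pos (s_lt hi (by omega)), s_mod _ _ _ (by omega), if_pos rfl]
      omega
  rcases Nat.lt_or_ge v (nB m n) with h' | h'
  · obtain ⟨i, j, hi, hj, rfl⟩ := h_form h h'
    rcases Nat.lt_or_ge i m with h1 | h1
    · have h2 := h_lt (show i + 1 < m + 1 by omega) hj
      rw [nx_h h1 hj]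
      unfold pv
      rw [if_neg (by omega), if_pos (by unfold nB; unfold aB; omega), Nat.add_sub_cancel_left,
        idx_div _ _ hj, if_neg (by omega)]
      have e : (i + 1) * (n + 1) = i * (n + 1) + (n + 1) := by ring
      omega
    · obtain rfl : i = m := by omega
      have h2 := h_lt (show 0 < i + 1 by omega) hj
      rw [nx_h' hj]
      unfold pv
      rw [if_neg (by omega), if_pos (by unfold nB; unfold aB; omega), Nat.add_sub_cancel_left,
        idx_div _ _ hj, if_pos rfl]
      omega
  · rw [nx_ge h']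
    have h2 : aB m n ≤ nB m n := by unfold aB nB; omega
    unfold pv
    rw [if_neg (by omega), if_neg (by omega)]

theorem nx_lt {m n v N : ℕ} (hN : nB m n ≤ N) (hv : v < N) : nx m n v < N := by
  rcases Nat.lt_or_ge v (aB m n) with h | h
  · have h2 : aB m n ≤ nB m n := by unfold aB nB; omega
    obtain ⟨i, c, hi, hc, rfl⟩ := s_form h
    rcases Nat.lt_or_ge c (n + 1) with h1 | h1
    · rw [nx_s hi h1]
      have := s_lt hi (show c + 1 < n + 2 by omega)
      omega
    · obtain rfl : c = n + 1 := by omega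
      rw [nx_s' hi]
      omega
  rcases Nat.lt_or_ge v (nB m n) with h' | h'
  · obtain ⟨i, j, hi, hj, rfl⟩ := h_form h h'
    have h3 : nB m n = aB m n + (m + 1) * (n + 1) := rfl
    rcases Nat.lt_or_ge i m with h1 | h1
    · have h2 := h_lt (show i + 1 < m + 1 by omega) hj
      rw [nx_h h1 hj]
      omega
    · obtain rfl : i = m := by omega
      have h2 := h_lt (show 0 < i + 1 by omega) hj
      rw [nx_h' hj]
      omega
  · rw [nx_ge h']
    exact hv

/-- The permutation. -/
noncomputable def perm {m n N : ℕ} (hN : nB m n ≤ N) : Equiv.Perm (Fin N) :=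
  Equiv.ofBijective (fun v => ⟨nx m n v, nx_lt hN v.2⟩) (Finite.injective_iff_bijective.mp
    fun v w h => Fin.ext (by
      have h1 : nx m n v = nx m n w := congrArg Fin.val h
      rw [← pv_nx m n v, h1, pv_nx]))

/-! ### Solvability -/

/-- The conditions on the unknowns. -/
def Sys (m n N : ℕ) (d : ℕ → ℕ → ℝ) (y : ℕ → ℝ) : Prop :=
  (∀ v, v < N → 0 ≤ y v - y (nx m n v) +
    (if Ok m n v then d (v / (n + 2)) (v % (n + 2)) else 0) * y (tc m n v)) ∧
  1 ≤ y (nB m n - 1)

theorem sys_forth {m n N : ℕ} (hN : nB m n ≤ N) (d : ℕ → ℕ → ℝ) (y : ℕ → ℝ)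
    (h : Sys m n N d y) : 1 ≤ y (aB m n + n) ∧ ∀ i, i < m →
      0 ≤ ∑ j ∈ Finset.range (n + 1), d i j * y (aB m n + j) := by
  obtain ⟨h1, h2⟩ := h
  have hab : nB m n = aB m n + (m + 1) * (n + 1) := rfl
  have hh : ∀ i j, i < m → j < n + 1 →
      y (aB m n + ((i + 1) * (n + 1) + j)) ≤ y (aB m n + (i * (n + 1) + j)) := by
    intro i j hi hj
    have h3 := h_lt (show i < m + 1 by omega) hj
    have h4 := h1 (aB m n + (i * (n + 1) + j)) (by omega)
    rw [nx_h hi hj, if_neg (by unfold Ok; omega), zero_mul, add_zero] at h4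
    linarith
  have hh' : ∀ j, j < n + 1 → y (aB m n + (0 * (n + 1) + j)) ≤ y (aB m n + (m * (n + 1) + j)) := by
    intro j hj
    have h3 := h_lt (show m < m + 1 by omega) hj
    have h4 := h1 (aB m n + (m * (n + 1) + j)) (by omega)
    rw [if_neg (by unfold Ok; omega), zero_mul, add_zero, nx_h' hj] at h4
    linarith
  have up : ∀ j, j < n + 1 → ∀ i, i ≤ m →
      y (aB m n + (i * (n + 1) + j)) ≤ y (aB m n + (0 * (n + 1) + j)) := by
    intro j hj i
    induction i with
    | zero => intro _; exact le_rfl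
    | succ i ih => intro hi; exact (hh i j (by omega) hj).trans (ih (by omega))
  have dn : ∀ j, j < n + 1 → ∀ t, t ≤ m →
      y (aB m n + (m * (n + 1) + j)) ≤ y (aB m n + ((m - t) * (n + 1) + j)) := by
    intro j hj t
    induction t with
    | zero => intro _; exact le_rfl
    | succ t ih =>
      intro ht
      refine (ih (by omega)).trans ?_
      have := hh (m - (t + 1)) j (by omega) hj
      rw [show m - (t + 1) + 1 = m - t by omega] at this
      exact this
  have eqn : ∀ i j, i ≤ m → j < n + 1 → y (aB m n + (i * (n + 1) + j)) = y (aB m n + j) := by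
    intro i j hi hj
    have h3 := dn j hj (m - i) (by omega)
    rw [show m - (m - i) = i by omega] at h3
    have h4 := le_antisymm (up j hj i hi) ((hh' j hj).trans h3)
    rw [h4]
    congr 1
    ring
  refine ⟨?_, fun i hi => ?_⟩
  · have e : nB m n - 1 = aB m n + (m * (n + 1) + n) := by
      rw [hab]
      have : (m + 1) * (n + 1) = m * (n + 1) + n + 1 := by ring
      omega
    rw [e, eqn m n le_rfl (by omega)] at h2
    exact h2
  · have hN' : aB m n ≤ N := by omega
    have s1 : ∀ c, c < n + 1 → 0 ≤ y (i * (n + 2) + c) - y (i * (n + 2) + (c + 1)) +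
        d i c * y (aB m n + c) := by
      intro c hc
      have h3 := s_lt hi (show c < n + 2 by omega)
      have hok : Ok m n (i * (n + 2) + c) := ⟨h3, by rw [s_mod _ _ _ (by omega)]; exact hc⟩
      have h4 := h1 (i * (n + 2) + c) (by omega)
      rw [nx_s hi hc, if_pos hok, s_div _ _ _ (by omega), s_mod _ _ _ (by omega)] at h4
      unfold tc tx at h4
      rw [if_pos hok, s_div _ _ _ (by omega), s_mod _ _ _ (by omega), eqn i c hi.le hc] at h4
      exact h4
    have s2 : 0 ≤ y (i * (n + 2) + (n + 1)) - y (i * (n + 2) + 0) := by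
      have h3 := s_lt hi (show n + 1 < n + 2 by omega)
      have h4 := h1 (i * (n + 2) + (n + 1)) (by omega)
      rw [nx_s' hi, if_neg (by
        rintro ⟨-, h5⟩
        rw [s_mod _ _ _ (by omega)] at h5
        omega), zero_mul, add_zero] at h4
      exact h4
    have s3 : 0 ≤ ∑ c ∈ Finset.range (n + 1), (y (i * (n + 2) + c) - y (i * (n + 2) + (c + 1)) +
        d i c * y (aB m n + c)) := Finset.sum_nonneg fun c hc => s1 c (Finset.mem_range.mp hc)
    rw [Finset.sum_add_distrib, Finset.sum_range_sub'] at s3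
    linarith

open Classical in
/-- The solution. -/
noncomputable def solY (m n : ℕ) (d : ℕ → ℕ → ℝ) (h : ℕ → ℝ) (v : ℕ) : ℝ :=
  if v < aB m n then ∑ j ∈ Finset.range (v % (n + 2)), d (v / (n + 2)) j * h j
  else h ((v - aB m n) % (n + 1))

theorem sys_back {m n N : ℕ} (d : ℕ → ℕ → ℝ) (h : ℕ → ℝ) (hn : 1 ≤ h n)
    (hs : ∀ i, i < m → 0 ≤ ∑ j ∈ Finset.range (n + 1), d i j * h j) :
    Sys m n N d (solY m n d h) := by
  have hab : nB m n = aB m n + (m + 1) * (n + 1) := rfl
  have vs : ∀ i c, i < m → c < n + 2 → solY m n d h (i * (n + 2) + c) =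
      ∑ j ∈ Finset.range c, d i j * h j := by
    intro i c hi hc
    unfold solY
    rw [if_pos (s_lt hi hc), s_div _ _ _ hc, s_mod _ _ _ hc]
  have vh : ∀ i j, j < n + 1 → solY m n d h (aB m n + (i * (n + 1) + j)) = h j := by
    intro i j hj
    unfold solY
    rw [if_neg (by omega), Nat.add_sub_cancel_left, idx_mod _ _ hj]
  refine ⟨fun v hv => ?_, ?_⟩
  · rcases Nat.lt_or_ge v (aB m n) with h1 | h1
    · obtain ⟨i, c, hi, hc, rfl⟩ := s_form h1
      rcases Nat.lt_or_ge c (n + 1) with h2 | h2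
      · have hok : Ok m n (i * (n + 2) + c) := ⟨h1, by rw [s_mod _ _ _ (by omega)]; exact h2⟩
        rw [nx_s hi h2, if_pos hok, s_div _ _ _ (by omega), s_mod _ _ _ (by omega)]
        unfold tc tx
        rw [if_pos hok, s_div _ _ _ (by omega), s_mod _ _ _ (by omega), vh i c h2,
          vs i c hi hc, vs i (c + 1) hi (by omega), Finset.sum_range_succ]
        linarith
      · obtain rfl : c = n + 1 := by omega
        rw [nx_s' hi, if_neg (by
          rintro ⟨-, h5⟩
          rw [s_mod _ _ _ (by omega)] at h5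
          omega), zero_mul, add_zero, vs i (n + 1) hi (by omega), vs i 0 hi (by omega)]
        simpa using hs i hi
    · rw [if_neg (by unfold Ok; omega), zero_mul, add_zero]
      rcases Nat.lt_or_ge v (nB m n) with h2 | h2
      · obtain ⟨i, j, hi, hj, rfl⟩ := h_form h1 h2
        rcases Nat.lt_or_ge i m with h3 | h3
        · rw [nx_h h3 hj, vh _ _ hj, vh _ _ hj, sub_self]
        · obtain rfl : i = m := by omega
          rw [nx_h' hj, vh _ _ hj, vh _ _ hj, sub_self]
      · rw [nx_ge h2, sub_self]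
  · have e : nB m n - 1 = aB m n + (m * (n + 1) + n) := by
      rw [hab]
      have : (m + 1) * (n + 1) = m * (n + 1) + n + 1 := by ring
      omega
    rw [e, vh _ _ (by omega)]
    exact hn

end Pool.Agent.K7.H40.PU
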